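import Pool.Agent.Helper14.TL7.StD

/-!
# Project TL (levels `4·7^n`): solutions of the relations with given leading form

Model: `Pool/Agent/Helper46/TL/M_Led.lean` and `Pool/Agent/Helper36/S7/M_Led.lean`.
-/

set_option autoImplicit false

namespace Pool.Agent.Helper2.TL7

open Pool.Agent.Helper14.TL7 Pool.Agent.Helper4.S7 Pool.Agent.Helper84.S7 Pool.Agent.Helper76.S7

private theorem seven0 : (7 : ZMod 7) = 0 := by decide

private theorem cast_zero (r s : ℕ) : (((7 ^ (r + s) : ℕ) : ℤ) : ZMod (7 ^ r)) = 0 := by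
  have h := ZMod.natCast_self (7 ^ r)
  push_cast at h ⊢
  rw [pow_add, h, zero_mul]

private theorem cast_zero' (r s : ℕ) : (((7 ^ (r + s) : ℕ) : ℤ) : ZMod (7 ^ s)) = 0 := by
  have h := ZMod.natCast_self (7 ^ s)
  push_cast at h ⊢
  rw [pow_add, h, mul_zero]

/-- The relations as equations between functions. -/
private theorem rel_of_eq {q q' : ℕ} (F : Fin 2 → Fn7 q q')
    (h1 : F 1 + op7 2 (-1) 1 (-3) (F 1) + op7 3 (-1) 1 (-2) (F 1) = 0)
    (h2 : F 0 + op7 1 1 0 1 (F 0) - F 1 +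
      (op7 5 (-3) 1 (-4) (F 0) + op7 5 2 1 3 (F 0) - op7 5 (-3) 1 (-4) (F 1)) +
      (op7 4 (-3) 1 (-5) (F 0) + op7 4 1 1 2 (F 0) - op7 4 (-3) 1 (-5) (F 1)) = 0) : RelE F :=
  ⟨fun x y => congrFun (congrFun h1 x) y, fun x y => congrFun (congrFun h2 x) y⟩

private theorem comp {r s : ℕ} (hm : S7Trm) (F : Fn7 (7 ^ r) (7 ^ s)) :
    op7 5 (-3) 1 (-4) (op7 5 (-3) 1 (-4) F) = op7 4 (-3) 1 (-5) F ∧
    op7 4 (-3) 1 (-5) (op7 5 (-3) 1 (-4) F) = F ∧
    op7 5 (-3) 1 (-4) (op7 1 1 0 1 F) = op7 5 2 1 3 F ∧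
    op7 4 (-3) 1 (-5) (op7 1 1 0 1 F) = op7 4 1 1 2 F := by
  obtain ⟨m1, m2, m3⟩ := hm (ZMod 7) r s F
  refine ⟨?_, ?_, ?_, ?_⟩
  · have e1 := m1 5 (-3) 1 (-4) 5 (-3) 1 (-4) (by decide) (by decide) (by decide) (by decide)
    norm_num at e1
    change tr7 5 (-3) 1 (-4) (tr7 5 (-3) 1 (-4) F) = tr7 4 (-3) 1 (-5) F
    rw [e1]
  · have e1 := m1 4 (-3) 1 (-5) 5 (-3) 1 (-4) (by decide) (by decide) (by decide) (by decide)
    have e2 := m3 (-1) 1 0 0 1 (by decide) (by decide) (by decide)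
    norm_num at e1 e2
    change tr7 4 (-3) 1 (-5) (tr7 5 (-3) 1 (-4) F) = F
    rw [e1, e2, m2]
  · have e1 := m1 5 (-3) 1 (-4) 1 1 0 1 (by decide) (by decide) (by decide) (by decide)
    norm_num at e1
    change tr7 5 (-3) 1 (-4) (tr7 1 1 0 1 F) = tr7 5 2 1 3 F
    rw [e1]
  · have e1 := m1 4 (-3) 1 (-5) 1 1 0 1 (by decide) (by decide) (by decide) (by decide)
    norm_num at e1
    change tr7 4 (-3) 1 (-5) (tr7 1 1 0 1 F) = tr7 4 1 1 2 F
    rw [e1]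

private theorem pow_T (ht : S7Trm) (r s : ℕ) (n : ℕ) :
    (op7 1 1 0 1 : Module.End (ZMod 7) (Fn7 (7 ^ r) (7 ^ s))) ^ n = op7 1 (n : ℤ) 0 1 := by
  induction n with
  | zero =>
    refine LinearMap.ext fun F => ?_
    obtain ⟨-, m2, -⟩ := ht (ZMod 7) r s F
    rw [pow_zero, Module.End.one_apply]
    exact m2.symm
  | succ n ih =>
    refine LinearMap.ext fun F => ?_
    obtain ⟨m1, -, -⟩ := ht (ZMod 7) r s F
    rw [pow_succ, ih, Module.End.mul_apply]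
    have e := m1 1 (n : ℤ) 0 1 1 1 0 1 (by decide) (by decide) (by decide) (by decide)
    change tr7 1 (n : ℤ) 0 1 (tr7 1 1 0 1 F) = tr7 1 ((n + 1 : ℕ) : ℤ) 0 1 F
    rw [e]
    congr 1
    push_cast
    ring

private theorem pow_T_one (ht : S7Trm) (r s : ℕ) :
    (op7 1 1 0 1 : Module.End (ZMod 7) (Fn7 (7 ^ r) (7 ^ s))) ^ (7 ^ (r + s)) = 1 := by
  rw [pow_T ht]
  refine LinearMap.ext fun F => ?_
  obtain ⟨-, m2, -⟩ := ht (ZMod 7) r s F
  rw [Module.End.one_apply]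
  change tr7 1 ((7 ^ (r + s) : ℕ) : ℤ) 0 1 F = F
  have h : tr7 1 ((7 ^ (r + s) : ℕ) : ℤ) 0 1 F = tr7 1 0 0 1 F := by
    funext x y
    simp only [tr7]
    rw [cast_zero r s, cast_zero' r s, Int.cast_zero, Int.cast_zero]
  rw [h, m2]

private theorem dX_bb (hb : S7Bb) (r s be : ℕ) (hbe : be < 7 ^ s) : ∀ al : ℕ, al < 7 ^ r →
    (dX ^ (al + 1) : Module.End (ZMod 7) (Fn7 (7 ^ r) (7 ^ s))) (bb7 al be) = 0 := by
  obtain ⟨b1, b2, b3, b4, b5, -⟩ := hb r s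
  intro al
  induction al with
  | zero =>
    intro _
    rw [zero_add, pow_one]
    exact b4 be hbe
  | succ n ih =>
    intro h
    rw [pow_succ, Module.End.mul_apply, b2 n be h hbe]
    exact ih (by omega)

private theorem dY_bb (hb : S7Bb) (r s al : ℕ) (hal : al < 7 ^ r) : ∀ be : ℕ, be < 7 ^ s →
    (dY ^ (be + 1) : Module.End (ZMod 7) (Fn7 (7 ^ r) (7 ^ s))) (bb7 al be) = 0 := by
  obtain ⟨b1, b2, b3, b4, b5, -⟩ := hb r s
  intro be
  induction be with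
  | zero =>
    intro _
    rw [zero_add, pow_one]
    exact b5 al hal
  | succ n ih =>
    intro h
    rw [pow_succ, Module.End.mul_apply, b3 al n hal h]
    exact ih (by omega)

/-- The leading form of `oW 4` on a monomial. -/
private theorem oW_bb (hl : S7Low0) (hn : S7Nfa) (hb : S7Bb) (r s al be : ℕ) (hal : al < 7 ^ r)
    (hbe : be < 7 ^ s) :
    oW 4 (bb7 al be : Fn7 (7 ^ r) (7 ^ s)) - ((om6 4 : ℤ) : ZMod 7) ^ (al + 5 * be) • bb7 al be ∈
      Wd7 ((al : ℤ) + be - 1) := by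
  obtain ⟨-, -, -, -, wmono, -, -, -, lcomm, -⟩ := hl r s
  obtain ⟨nW, -, -, -, n5, -⟩ := hn r s
  obtain ⟨b1, -⟩ := hb r s
  have hm := b1 al be hal hbe
  have hw := nW 4 _ _ hm
  rw [sub_zero] at hw
  intro i j hij
  rw [map_sub, map_smul]
  rcases Nat.lt_or_ge (al + be) (i + j) with hlt | hge
  · have h1 : ((al : ℤ) + be) < (i : ℤ) + j := by exact_mod_cast hlt
    rw [hm i j h1, hw i j h1, smul_zero, sub_zero]
  · have he : i + j = al + be := by omega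
    have hmij : (bb7 al be : Fn7 (7 ^ r) (7 ^ s)) ∈ Wd7 ((i : ℤ) + j) := by
      have : ((i : ℤ) + j) = (al : ℤ) + be := by exact_mod_cast he
      rw [this]
      exact hm
    rw [n5 4 i j _ hmij]
    rcases Nat.lt_trichotomy i al with h | h | h
    · -- `be < j`
      obtain ⟨k, hk⟩ : ∃ k, j = k + (be + 1) := ⟨j - (be + 1), by omega⟩
      have h0 : (dX ^ i * dY ^ j : Module.End (ZMod 7) (Fn7 (7 ^ r) (7 ^ s))) (bb7 al be) = 0 := by
        rw [hk, pow_add, Module.End.mul_apply, Module.End.mul_apply, dY_bb hb r s al hal be hbe,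
          map_zero, map_zero]
      rw [h0, smul_zero, smul_zero, sub_zero]
    · have hj : j = be := by omega
      rw [h, hj, sub_self]
    · obtain ⟨k, hk⟩ : ∃ k, i = k + (al + 1) := ⟨i - (al + 1), by omega⟩
      have hc : Commute (dX : Module.End (ZMod 7) (Fn7 (7 ^ r) (7 ^ s))) dY := lcomm
      have h0 : (dX ^ i * dY ^ j : Module.End (ZMod 7) (Fn7 (7 ^ r) (7 ^ s))) (bb7 al be) = 0 := by
        rw [(hc.pow_pow i j).eq, hk, pow_add, Module.End.mul_apply, Module.End.mul_apply,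
          dX_bb hb r s be hbe al hal, map_zero, map_zero]
      rw [h0, smul_zero, smul_zero, sub_zero]

private theorem mu_ex (al be : ℕ) (h : ¬ (3 : ℤ) ∣ (al : ℤ) - be) :
    ∃ mu : ZMod 7, mu * (1 - ((om6 4 : ℤ) : ZMod 7) ^ (al + 5 * be)) = 2 := by
  have e2 : ((om6 4 : ℤ) : ZMod 7) = 2 := by decide
  rw [e2]
  have e3 : (2 : ZMod 7) ^ 3 = 1 := by decide
  obtain ⟨q, c, hc, hq⟩ : ∃ q c : ℕ, c < 3 ∧ al + 5 * be = 3 * q + c :=
    ⟨(al + 5 * be) / 3, (al + 5 * be) % 3, Nat.mod_lt _ (by norm_num), by omega⟩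
  have hc0 : c ≠ 0 := by
    intro h0
    apply h
    omega
  rw [hq, pow_add, pow_mul, e3, one_pow, one_mul]
  interval_cases c
  · exact absurd rfl hc0
  · exact ⟨5, by decide⟩
  · exact ⟨4, by decide⟩

theorem hLed (ht : S7Trm) (hl : S7Low0) (hn : S7Nfa) (h1 : S7Lw1) (hb : S7Bb) : TLed := by
  intro r s al be hal hbe h3
  obtain ⟨-, -, -, -, wmono, -, ldx, ldy, -⟩ := hl r s
  obtain ⟨nW, -, -, -, -, -, -, -, nA, -⟩ := hn r s
  obtain ⟨b1, -⟩ := hb r s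
  obtain ⟨lb, lb'⟩ := h1 r s 5 (-3) 1 (-4) (by decide) (by decide)
  obtain ⟨lb1, -⟩ := lb' 4 (by decide)
  obtain ⟨lt, -⟩ := h1 r s 1 1 0 1 (by decide) (by decide)
  obtain ⟨mu, hmu⟩ := mu_ex al be h3
  have hoW := oW_bb hl hn hb r s al be hal hbe
  have hmW0 := b1 al be hal hbe
  obtain ⟨c, hc⟩ : ∃ c : ZMod 7, c = ((om6 4 : ℤ) : ZMod 7) ^ (al + 5 * be) := ⟨_, rfl⟩
  rw [← hc] at hoW hmu
  obtain ⟨d, hd⟩ : ∃ d : ℤ, d = (al : ℤ) + be := ⟨_, rfl⟩
  obtain ⟨m, hm⟩ : ∃ m : Fn7 (7 ^ r) (7 ^ s), m = bb7 al be := ⟨_, rfl⟩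
  rw [← hd, ← hm] at hoW hmW0
  rw [← hd, ← hm]
  obtain ⟨V1, hV1⟩ : ∃ V1 : Fn7 (7 ^ r) (7 ^ s), V1 = op7 5 (-3) 1 (-4) m := ⟨_, rfl⟩
  have hV1W : V1 ∈ Wd7 d := by
    have h := lb _ _ hmW0
    rw [sub_zero] at h
    rw [hV1]
    exact h
  have hV1c : V1 - c • m ∈ Wd7 (d - 1) := by
    have h := lb1 _ _ hmW0
    have e : V1 - c • m = (op7 5 (-3) 1 (-4) - oW 4 : Module.End (ZMod 7) (Fn7 (7 ^ r) (7 ^ s))) m +
        (oW 4 m - c • m) := by
      rw [hV1, LinearMap.sub_apply]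
      abel
    rw [e]
    exact Submodule.add_mem _ h hoW
  obtain ⟨k, hk⟩ : ∃ k : Fn7 (7 ^ r) (7 ^ s), k = mu • (m - V1) := ⟨_, rfl⟩
  have hkW : k ∈ Wd7 d := by
    rw [hk]
    exact Submodule.smul_mem _ _ (Submodule.sub_mem _ hmW0 hV1W)
  have hk3 : k + op7 5 (-3) 1 (-4) k + op7 4 (-3) 1 (-5) k = 0 := by
    rw [hk, map_smul, map_smul, map_sub, map_sub, hV1, (comp ht m).1, (comp ht m).2.1]
    module
  have hk2 : k - (2 : ZMod 7) • m ∈ Wd7 (d - 1) := by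
    have e : k - (2 : ZMod 7) • m = -(mu • (V1 - c • m)) := by
      rw [← hmu, hk]
      module
    rw [e]
    exact Submodule.neg_mem _ (Submodule.smul_mem _ _ hV1c)
  obtain ⟨T, hT⟩ : ∃ T : Module.End (ZMod 7) (Fn7 (7 ^ r) (7 ^ s)), T = op7 1 1 0 1 := ⟨_, rfl⟩
  obtain ⟨G, hG⟩ : ∃ G : Module.End (ZMod 7) (Fn7 (7 ^ r) (7 ^ s)),
      G = ∑ i ∈ Finset.range (7 ^ (r + s)), (-T) ^ i := ⟨_, rfl⟩
  have hTG : (T + 1) * G = (1 + 1 : Module.End (ZMod 7) (Fn7 (7 ^ r) (7 ^ s))) := by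
    have hodd : Odd (7 ^ (r + s)) := Odd.pow (by decide)
    have hT1 : T ^ (7 ^ (r + s)) = 1 := by
      rw [hT]
      exact pow_T_one ht r s
    have h3 : (-T) ^ (7 ^ (r + s)) = -(T ^ (7 ^ (r + s))) := Odd.neg_pow hodd T
    have h1 : (-T - 1) * G = (-T) ^ (7 ^ (r + s)) - 1 := by
      rw [hG]
      exact mul_geom_sum (-T) (7 ^ (r + s))
    rw [h3, hT1] at h1
    refine LinearMap.ext fun W => ?_
    have h4 : ((-T - 1) * G) W = (-1 - 1 : Module.End (ZMod 7) (Fn7 (7 ^ r) (7 ^ s))) W := by rw [h1]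
    rw [Module.End.mul_apply, LinearMap.sub_apply, LinearMap.neg_apply, Module.End.one_apply,
      LinearMap.sub_apply, LinearMap.neg_apply, Module.End.one_apply] at h4
    rw [Module.End.mul_apply, LinearMap.add_apply, Module.End.one_apply, LinearMap.add_apply,
      Module.End.one_apply]
    have h5 : T (G W) + G W = -(-(T (G W)) - G W) := by abel
    rw [h5, h4]
    abel
  obtain ⟨F0, hF0⟩ : ∃ F0 : Fn7 (7 ^ r) (7 ^ s), F0 = (4 : ZMod 7) • G k := ⟨_, rfl⟩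
  have hsum : F0 + T F0 = k := by
    have h1 : F0 + T F0 = (4 : ZMod 7) • (((T + 1) * G) k) := by
      rw [hF0, map_smul, Module.End.mul_apply, LinearMap.add_apply, Module.End.one_apply, smul_add,
        add_comm]
    rw [h1, hTG, LinearMap.add_apply, Module.End.one_apply]
    funext x y
    simp only [Pi.add_apply, Pi.smul_apply, smul_eq_mul]
    linear_combination (k x y) * seven0
  have hpow : ∀ (n : ℕ) (W : Fn7 (7 ^ r) (7 ^ s)), W ∈ Wd7 d → ((-T) ^ n) W ∈ Wd7 d := by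
    intro n
    induction n with
    | zero =>
      intro W hW
      rw [pow_zero, Module.End.one_apply]
      exact hW
    | succ n ih =>
      intro W hW
      rw [pow_succ, Module.End.mul_apply]
      apply ih
      have h := lt _ _ hW
      rw [sub_zero, ← hT] at h
      rw [LinearMap.neg_apply]
      exact Submodule.neg_mem _ h
  have hF0W : F0 ∈ Wd7 d := by
    rw [hF0]
    refine Submodule.smul_mem _ _ ?_
    rw [hG, LinearMap.sum_apply]
    exact Submodule.sum_mem _ fun i _ => hpow i _ hkW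
  have hTF : T F0 - F0 ∈ Wd7 (d - 1) := by
    have h := nA _ _ hF0W
    rw [LinearMap.sub_apply, Module.End.one_apply] at h
    rw [hT]
    exact h
  refine ⟨F0, rel_of_eq _ ?_ ?_, ?_⟩
  · change (0 : Fn7 (7 ^ r) (7 ^ s)) + op7 2 (-1) 1 (-3) 0 + op7 3 (-1) 1 (-2) 0 = 0
    rw [map_zero, map_zero, add_zero, add_zero]
  · change F0 + op7 1 1 0 1 F0 - 0 + (op7 5 (-3) 1 (-4) F0 + op7 5 2 1 3 F0 - op7 5 (-3) 1 (-4) 0) +
      (op7 4 (-3) 1 (-5) F0 + op7 4 1 1 2 F0 - op7 4 (-3) 1 (-5) 0) = 0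
    rw [← (comp ht F0).2.2.1, ← (comp ht F0).2.2.2, map_zero, map_zero, sub_zero, sub_zero, sub_zero,
      ← map_add, ← map_add, ← hT, hsum, hk3]
  · have e : F0 - m = (4 : ZMod 7) • ((k - (2 : ZMod 7) • m) - (T F0 - F0)) := by
      rw [← hsum]
      funext x y
      simp only [Pi.sub_apply, Pi.add_apply, Pi.smul_apply, smul_eq_mul]
      linear_combination (-(F0 x y) + m x y) * seven0
    rw [e]
    exact Submodule.smul_mem _ _ (Submodule.sub_mem _ hk2 hTF)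

end Pool.Agent.Helper2.TL7
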